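import Pool.Agent.Helper47_PSS.STN

/-! Squad PSS, row STT: one step of the deformation with target. -/

open scoped BigOperators TensorProduct

noncomputable section

namespace Pool.Agent.PSS.H47

open Pool.Agent.PFD.D2 (Cdv FibG)
open Pool.Agent.PFD.D2b (FrR)
open Finset

/-- the element `x` comes from an element of the order with reduction `u` -/
def Rl {A B A₀ : Type} (i : A → B) (q : A → A₀) (x : B) (u : A₀) : Prop := ∃ e, i e = x ∧ q e = u

theorem rl_sum {ι A B A₀ : Type} [Ring A] [Ring B] [Ring A₀] (i : A →+* B) (q : A →+* A₀)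
    (s : Finset ι) (f : ι → B) (g : ι → A₀) (h : ∀ p ∈ s, Rl i q (f p) (g p)) :
    Rl i q (∑ p ∈ s, f p) (∑ p ∈ s, g p) := by
  classical
  induction s using Finset.induction_on with
  | empty => exact ⟨0, by rw [Finset.sum_empty, map_zero], by rw [Finset.sum_empty, map_zero]⟩
  | insert p s hp ih =>
    obtain ⟨a, ha, ha'⟩ := h p (Finset.mem_insert_self _ _)
    obtain ⟨b, hb, hb'⟩ := ih fun q hq => h q (Finset.mem_insert_of_mem hq)
    exact ⟨a + b, by rw [Finset.sum_insert hp, map_add, ha, hb],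
      by rw [Finset.sum_insert hp, map_add, ha', hb']⟩

/-- extension of a bilinear map from the order to the algebra -/
theorem stt_ext {R K V A B κ Ω : Type} [CommRing R] [Field K] [Algebra R K] [CommGroup V]
    [Fintype V] [Ring A] [Algebra R A] [Ring B] [Algebra R B] [Algebra K B] [Fintype κ]
    [Fintype Ω] [MulAction (V × V) Ω] (α : V →* A) (W : Subgroup V)
    (lam : A →ₗ[R] R) (x y : κ → A) (b : Ω → A) (c : Ω → (A →ₗ[R] R))
    (C : KC R K B α lam x y b c) (μ : A →ₗ[R] A →ₗ[R] A) (hμ : WB2 α W (fun a b => μ a b))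
    (hN : Nrm (fun a b => μ a b)) :
    ∃ μB : B →ₗ[K] B →ₗ[K] B, (∀ a a', μB (C.i a) (C.i a') = C.i (μ a a')) ∧
      WB2 (ia C.i α) W (fun a b => μB a b) ∧ Nrm (fun a b => μB a b) := by
  obtain ⟨-, -, hfr⟩ := C.fr
  obtain ⟨-, -, hfK⟩ := C.frK
  have hind : ∀ p : B → Prop, (∀ a, p (C.i a)) → (∀ u v, p u → p v → p (u + v)) →
      (∀ (k : K) u, p u → p (k • u)) → ∀ u, p u := by
    intro p h1 h2 h3 u
    rw [← hfK u]
    refine Finset.sum_induction _ p h2 ?_ fun ω _ => h3 _ _ (h1 _)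
    have := h1 0
    rwa [map_zero] at this
  let μB : B →ₗ[K] B →ₗ[K] B := ∑ ω, (C.cK ω).smulRight
    (∑ ω', (C.cK ω').smulRight (C.i (μ (b ω) (b ω'))))
  have hB : ∀ a a', μB (C.i a) (C.i a') = C.i (μ a a') := by
    intro a a'
    have e : ∀ (r : R) (a : A), algebraMap R K r • C.i a = C.i (r • a) := by
      intro r a
      rw [C.tow, map_smul]
    simp only [μB, LinearMap.sum_apply, LinearMap.smulRight_apply, LinearMap.smul_apply, C.ck]
    have h1 : ∀ ω, ∑ ω', algebraMap R K (c ω' a') • C.i (μ (b ω) (b ω')) = C.i (μ (b ω) a') := by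
      intro ω
      simp only [e]
      rw [← map_sum]
      congr 1
      simp only [← map_smul]
      rw [← map_sum, hfr]
    simp only [h1]
    simp only [e]
    rw [← map_sum]
    congr 1
    conv_rhs => rw [← hfr a, map_sum, LinearMap.sum_apply]
    refine Finset.sum_congr rfl fun ω _ => ?_
    rw [map_smul, LinearMap.smul_apply]
  refine ⟨μB, hB, ?_, ?_, ?_⟩
  · intro w hw u v
    obtain ⟨hw1, hw2⟩ : (∀ a a', μ (α w * a) a' = α w * μ a a') ∧
        ((∀ a a', μ (a * α w) a' = μ a (α w * a')) ∧ ∀ a a', μ a (a' * α w) = μ a a' * α w) :=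
      ⟨fun a a' => (hμ w hw a a').1, fun a a' => (hμ w hw a a').2.1,
        fun a a' => (hμ w hw a a').2.2⟩
    refine hind (fun u => μB (ia C.i α w * u) v = ia C.i α w * μB u v ∧
      μB (u * ia C.i α w) v = μB u (ia C.i α w * v) ∧
      μB u (v * ia C.i α w) = μB u v * ia C.i α w) ?_ ?_ ?_ u
    · intro a
      refine hind (fun v => μB (ia C.i α w * C.i a) v = ia C.i α w * μB (C.i a) v ∧
        μB (C.i a * ia C.i α w) v = μB (C.i a) (ia C.i α w * v) ∧
        μB (C.i a) (v * ia C.i α w) = μB (C.i a) v * ia C.i α w) ?_ ?_ ?_ v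
      · intro a'
        simp only [ia_apply, ← map_mul, hB, hw1, hw2.1, hw2.2]
        exact ⟨trivial, trivial, trivial⟩
      · rintro u v ⟨h1, h2, h3⟩ ⟨h4, h5, h6⟩
        refine ⟨?_, ?_, ?_⟩
        · rw [map_add, map_add, h1, h4, mul_add]
        · rw [map_add, mul_add, map_add, h2, h5]
        · rw [add_mul, map_add, map_add, h3, h6, add_mul]
      · rintro k u ⟨h1, h2, h3⟩
        refine ⟨?_, ?_, ?_⟩
        · rw [map_smul, map_smul, h1, mul_smul_comm]
        · rw [map_smul, mul_smul_comm, map_smul, h2]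
        · rw [smul_mul_assoc, map_smul, map_smul, h3, smul_mul_assoc]
    · rintro u v' ⟨h1, h2, h3⟩ ⟨h4, h5, h6⟩
      refine ⟨?_, ?_, ?_⟩
      · rw [mul_add, map_add, map_add, LinearMap.add_apply, LinearMap.add_apply, h1, h4, mul_add]
      · rw [add_mul, map_add, map_add, LinearMap.add_apply, LinearMap.add_apply, h2, h5]
      · rw [map_add, LinearMap.add_apply, LinearMap.add_apply, h3, h6, add_mul]
    · rintro k u ⟨h1, h2, h3⟩
      refine ⟨?_, ?_, ?_⟩
      · rw [mul_smul_comm, map_smul, map_smul, LinearMap.smul_apply, LinearMap.smul_apply, h1,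
          mul_smul_comm]
      · rw [smul_mul_assoc, map_smul, map_smul, LinearMap.smul_apply, LinearMap.smul_apply, h2]
      · rw [map_smul, LinearMap.smul_apply, LinearMap.smul_apply, h3, smul_mul_assoc]
  · intro v
    refine hind (fun v => μB 1 v = 0) ?_ ?_ ?_ v
    · intro a
      show μB 1 (C.i a) = 0
      have := hB 1 a
      rw [map_one] at this
      rw [this, show μ 1 a = 0 from hN.1 a, map_zero]
    · intro u v h1 h2
      show μB 1 (u + v) = 0
      rw [map_add, h1, h2, add_zero]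
    · intro k u h1
      show μB 1 (k • u) = 0
      rw [map_smul, h1, smul_zero]
  · intro v
    refine hind (fun v => μB v 1 = 0) ?_ ?_ ?_ v
    · intro a
      show μB (C.i a) 1 = 0
      have := hB a 1
      rw [map_one] at this
      rw [this, show μ a 1 = 0 from hN.2 a, map_zero]
    · intro u v h1 h2
      show μB (u + v) 1 = 0
      rw [map_add, LinearMap.add_apply, h1, h2, add_zero]
    · intro k u h1
      show μB (k • u) 1 = 0
      rw [map_smul, LinearMap.smul_apply, h1, smul_zero]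

theorem stt (TRX : TrxStmt) (TRA : TraStmt) (TRC : TrcStmt) (H2V : H2vStmt) (BLT : BltStmt) :
    SttStmt := by
  intro R K F V E A A₀ B κ Ω _ _ _ _ _ _ _ _ _ _ _ _ _ _ _ _ _ _ _ _ _ φ W z α lam x y b c C u
    cv f α₀ D₀ hV hS hu hα P m N hT hI
  obtain ⟨⟨D, hD⟩, hW2, hNr⟩ := TRA K V B (ia C.i α) W P m hT
  -- the lift of the coefficient of the target
  obtain ⟨μ, hμ1, hμ2, hμ3⟩ := BLT R F V A A₀ Ω W α b c cv f α₀ (D₀.m (N + 1)) C.fr hα
    (fun w hw a a' => ⟨D₀.wl (N + 1) ⟨w, hw⟩ a a', D₀.wm (N + 1) ⟨w, hw⟩ a a',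
      D₀.wr (N + 1) ⟨w, hw⟩ a a'⟩) ⟨D₀.n1 N, D₀.n2 N⟩
  obtain ⟨μB, hB1, hB2, hB3⟩ := stt_ext α W lam x y b c C μ hμ1 hμ2
  -- the scalar
  set p : K := algebraMap R K cv.π with hp
  have hπ : cv.π ≠ 0 := by
    intro h
    have := cv.reg 1 (by rw [h, zero_mul])
    exact one_ne_zero this
  have hp0 : p ≠ 0 := by
    intro h
    refine hπ (C.rinj ?_)
    rw [map_zero]
    exact h
  have hps : ∀ a : A, p • C.i a = C.i (cv.π • a) := by
    intro a
    rw [hp, C.tow, map_smul]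
  have hκ : cv.κ cv.π = 0 := (cv.ker _).2 ⟨1, (mul_one _).symm⟩
  have hqs : ∀ a : A, f.q (cv.π • a) = 0 := by
    intro a
    rw [Algebra.smul_def, map_mul, f.sc, hκ, map_zero, zero_mul]
  -- the cochain
  let cc : B →ₗ[K] B →ₗ[K] B := p⁻¹ • (m (N + 1) - μB)
  have hcc : ∀ u v, cc u v = p⁻¹ • (m (N + 1) u v - μB u v) := fun u v => rfl
  have hccW : WB2 (ia C.i α) W (fun a b => cc a b) := by
    intro w hw u v
    obtain ⟨h1, h2, h3⟩ := hW2 (N + 1) w hw u v
    obtain ⟨h4, h5, h6⟩ := hB2 w hw u v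
    simp only at h1 h2 h3 h4 h5 h6
    simp only [hcc]
    refine ⟨?_, ?_, ?_⟩
    · rw [h1, h4, ← mul_sub, mul_smul_comm]
    · rw [h2, h5]
    · rw [h3, h6, ← sub_mul, smul_mul_assoc]
  have hccN : Nrm (fun a b => cc a b) := by
    obtain ⟨h1, h2⟩ := hNr N
    obtain ⟨h3, h4⟩ := hB3
    simp only at h1 h2 h3 h4
    refine ⟨fun v => ?_, fun v => ?_⟩
    · show cc 1 v = 0
      rw [hcc, h1, h3, sub_zero, smul_zero]
    · show cc v 1 = 0
      rw [hcc, h2, h4, sub_zero, smul_zero]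
  have hdl : ∀ a₁ a₂ a₃, In C.i (dl (fun a b => cc a b) (C.i a₁) (C.i a₂) (C.i a₃)) := by
    intro a₁ a₂ a₃
    have h := dm_dl D N (C.i a₁) (C.i a₂) (C.i a₃)
    rw [hD] at h
    have h' := dm_dl D₀ N (f.q a₁) (f.q a₂) (f.q a₃)
    have hR : Rl (C.i : A →+* B) f.q (dl (fun a b => m (N + 1) a b) (C.i a₁) (C.i a₂) (C.i a₃))
        (dl (fun a b => D₀.m (N + 1) a b) (f.q a₁) (f.q a₂) (f.q a₃)) := by
      rw [h, h']
      refine rl_sum (C.i : A →+* B) f.q _ _ _ fun p hp => ?_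
      obtain ⟨hp1, hp2, hp3⟩ := Finset.mem_filter.1 hp
      have hp4 := Finset.HasAntidiagonal.mem_antidiagonal.1 hp1
      obtain ⟨e1, he1, hq1⟩ := hI p.2 (by omega) a₁ a₂
      obtain ⟨e2, he2, hq2⟩ := hI p.2 (by omega) a₂ a₃
      obtain ⟨e3, he3, hq3⟩ := hI p.1 (by omega) e1 a₃
      obtain ⟨e4, he4, hq4⟩ := hI p.1 (by omega) a₁ e2
      refine ⟨e3 - e4, ?_, ?_⟩
      · show C.i (e3 - e4) = _
        rw [map_sub, he3, he4, he1, he2]
      · rw [map_sub, hq3, hq4, hq1, hq2]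
    obtain ⟨e, he, hqe⟩ := hR
    have he' : C.i e = dl (fun a b => m (N + 1) a b) (C.i a₁) (C.i a₂) (C.i a₃) := he
    have hμd : C.i (dl (fun a b => μ a b) a₁ a₂ a₃) =
        dl (fun a b => μB a b) (C.i a₁) (C.i a₂) (C.i a₃) := by
      simp only [dl, map_add, map_sub, map_mul, ← hB1]
    have hqd : f.q (dl (fun a b => μ a b) a₁ a₂ a₃) =
        dl (fun a b => D₀.m (N + 1) a b) (f.q a₁) (f.q a₂) (f.q a₃) := by
      simp only [dl, map_add, map_sub, map_mul, hμ3]
    obtain ⟨y', hy'⟩ := f.ker (e - dl (fun a b => μ a b) a₁ a₂ a₃)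
      (by rw [map_sub, hqe, hqd, sub_self])
    refine ⟨y', ?_⟩
    have h1 : dl (fun a b => cc a b) (C.i a₁) (C.i a₂) (C.i a₃) =
        p⁻¹ • (dl (fun a b => m (N + 1) a b) (C.i a₁) (C.i a₂) (C.i a₃) -
          dl (fun a b => μB a b) (C.i a₁) (C.i a₂) (C.i a₃)) := by
      simp only [dl, hcc, smul_sub, smul_add, mul_smul_comm, smul_mul_assoc, mul_sub, sub_mul]
      abel
    rw [h1, ← he', ← hμd, ← map_sub, hy', ← hps, smul_smul, inv_mul_cancel₀ hp0, one_smul]
  obtain ⟨H, hH1, hH2, hH3⟩ := H2V R K V E A B κ Ω φ W z α lam x y b c C u hV hS hu cc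
    hccW hccN hdl
  let P' : ℕ → (B →ₗ[K] B) := fun n => if n = N + 1 then P (N + 1) - p • H else P n
  have hP' : ∀ n ≤ N, P' n = P n := by
    intro n hn
    simp only [P']
    rw [if_neg (by omega)]
  have hPN : P' (N + 1) = P (N + 1) - p • H := by simp only [P', if_true]
  have hP0 : P' 0 = LinearMap.id := by rw [hP' 0 (Nat.zero_le _), hT.p0]
  have hPw : ∀ n, WBl (ia C.i α) W (P' n) := by
    intro n
    by_cases hn : n = N + 1
    · rw [hn, hPN]
      intro w hw a
      rw [LinearMap.sub_apply, LinearMap.sub_apply, LinearMap.sub_apply, LinearMap.smul_apply,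
        LinearMap.smul_apply, LinearMap.smul_apply,
        (hT.pw (N + 1) w hw a).1, (hT.pw (N + 1) w hw a).2, (hH1 w hw a).1, (hH1 w hw a).2,
        mul_sub, sub_mul, mul_smul_comm, smul_mul_assoc]
      exact ⟨rfl, rfl⟩
    · have : P' n = P n := by simp only [P']; rw [if_neg hn]
      rw [this]
      exact hT.pw n
  have hP1 : ∀ n, P' (n + 1) 1 = 0 := by
    intro n
    by_cases hn : n + 1 = N + 1
    · rw [hn, hPN, LinearMap.sub_apply, LinearMap.smul_apply, hT.p1, hH2, smul_zero, sub_zero]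
    · have : P' (n + 1) = P (n + 1) := by simp only [P']; rw [if_neg hn]
      rw [this]
      exact hT.p1 n
  obtain ⟨m', hm'⟩ := TRX K V B (ia C.i α) W P' hP0 hPw hP1
  obtain ⟨hc1, hc2⟩ := TRC K V B (ia C.i α) W P P' m m' N hT hm' hP'
  refine ⟨P', m', hm', hP', fun n hn a₁ a₂ => ?_⟩
  by_cases hnN : n ≤ N
  · rw [hc1 n hnN]
    exact hI n hnN a₁ a₂
  · have hn' : n = N + 1 := by omega
    rw [hn', hc2]
    obtain ⟨e, he⟩ := hH3 a₁ a₂
    refine ⟨μ a₁ a₂ + cv.π • e, ?_, ?_⟩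
    · rw [map_add, ← hps, he, hcc, smul_sub, smul_smul, mul_inv_cancel₀ hp0, one_smul, ← hB1]
      simp only [d1, hPN, LinearMap.sub_apply, LinearMap.smul_apply, smul_add, smul_sub,
        mul_sub, sub_mul, mul_smul_comm, smul_mul_assoc]
      abel
    · rw [map_add, hqs, add_zero, hμ3]

end Pool.Agent.PSS.H47
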